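import Pool.Agent.Y290.PL.Stm

/-! Project PL, job PL-FS (helper769): Fourier series of smooth periodic functions. -/

set_option autoImplicit false

namespace Pool.Agent.Y769.PL

open MeasureTheory Set Pool.Agent.Y290.PL
open scoped ContDiff

lemma ej_deriv (j : ℤ) (t : ℝ) : HasDerivAt (fun t : ℝ => ej j t) ((j : ℂ) * Complex.I * ej j t) t := by
  unfold ej
  have h1 : HasDerivAt (fun t : ℝ => (((j * t : ℝ) : ℂ) * Complex.I)) ((j : ℂ) * Complex.I) t := by
    have h2 : HasDerivAt (fun t : ℝ => (j : ℝ) * t) (j : ℝ) t := by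
      simpa using (hasDerivAt_id t).const_mul (j : ℝ)
    have h3 := h2.ofReal_comp
    have h4 := h3.mul_const Complex.I
    simpa using h4
  have h5 := h1.cexp
  convert h5 using 1
  ring

lemma ej_norm (j : ℤ) (t : ℝ) : ‖ej j t‖ = 1 := by
  unfold ej
  exact Complex.norm_exp_ofReal_mul_I _

lemma ej_contDiff (j : ℤ) : ContDiff ℝ ∞ (fun t : ℝ => ej j t) := by
  unfold ej
  apply ContDiff.cexp
  apply ContDiff.mul _ contDiff_const
  exact Complex.ofRealCLM.contDiff.comp (contDiff_const.mul contDiff_id)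

lemma ej_iter (c : ℂ) (j : ℤ) (k : ℕ) :
    iteratedDeriv k (fun t : ℝ => c * ej j t) =
      fun t : ℝ => ((j : ℂ) * Complex.I) ^ k * c * ej j t := by
  induction k with
  | zero => funext t; simp
  | succ k ih =>
    rw [iteratedDeriv_succ, ih]
    funext t
    have h := (ej_deriv j t).const_mul (((j : ℂ) * Complex.I) ^ k * c)
    rw [h.deriv]
    ring

lemma smooth_sum (c : ℕ → ℂ) (J : ℕ → ℤ)
    (h : ∀ k : ℕ, Summable fun j : ℕ => |(J j : ℝ)| ^ k * ‖c j‖) :
    ContDiff ℝ ∞ fun t : ℝ => ∑' j : ℕ, c j * ej (J j) t := by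
  apply contDiff_tsum (v := fun k j => |(J j : ℝ)| ^ k * ‖c j‖)
  · intro j
    exact contDiff_const.mul (ej_contDiff _)
  · intro k _
    exact h k
  · intro k j x _
    rw [norm_iteratedFDeriv_eq_norm_iteratedDeriv, ej_iter]
    simp only [norm_mul, norm_pow, ej_norm, Complex.norm_I, mul_one]
    rw [show ‖((J j : ℤ) : ℂ)‖ = |(J j : ℝ)| by
      rw [← Complex.ofReal_intCast, Complex.norm_real, Real.norm_eq_abs]]

/-- Fourier coefficients -/
noncomputable def cc (Φ : ℝ → ℂ) (j : ℤ) : ℂ :=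
  (1 / (2 * Real.pi) : ℝ) * ∫ t in (0 : ℝ)..2 * Real.pi, Φ t * ej (-j) t

lemma ej_two_pi (j : ℤ) : ej j (2 * Real.pi) = 1 := by
  unfold ej
  have h := Complex.exp_int_mul_two_pi_mul_I j
  rw [← h]
  congr 1
  push_cast
  ring

lemma ej_zero (j : ℤ) : ej j 0 = 1 := by
  unfold ej
  simp

lemma ej_cont (j : ℤ) : Continuous (fun t : ℝ => ej j t) := (ej_contDiff j).continuous

lemma cc_deriv (Φ : ℝ → ℂ) (hs : ContDiff ℝ ∞ Φ) (hp : ∀ t, Φ (t + 2 * Real.pi) = Φ t) (j : ℤ) :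
    cc (deriv Φ) j = (j : ℂ) * Complex.I * cc Φ j := by
  have hd : ∀ t, HasDerivAt Φ (deriv Φ t) t := fun t =>
    ((hs.differentiable (by simp)) t).hasDerivAt
  have hdc : Continuous (deriv Φ) := hs.continuous_deriv (by simp)
  have h := intervalIntegral.integral_mul_deriv_eq_deriv_mul (a := 0) (b := 2 * Real.pi)
    (u := Φ) (u' := deriv Φ) (v := fun t => ej (-j) t)
    (v' := fun t => (((-j : ℤ) : ℂ) * Complex.I * ej (-j) t))
    (fun t _ => hd t) (fun t _ => ej_deriv (-j) t) (hdc.intervalIntegrable _ _)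
    ((continuous_const.mul (ej_cont (-j))).intervalIntegrable _ _)
  have h0 : Φ (2 * Real.pi) = Φ 0 := by simpa using hp 0
  rw [ej_two_pi, ej_zero, h0, sub_self, zero_sub] at h
  have h2 : (∫ x in (0 : ℝ)..2 * Real.pi, Φ x * (((-j : ℤ) : ℂ) * Complex.I * ej (-j) x)) =
      ((-j : ℤ) : ℂ) * Complex.I * ∫ x in (0 : ℝ)..2 * Real.pi, Φ x * ej (-j) x := by
    rw [← intervalIntegral.integral_const_mul]
    congr 1
    funext x
    ring
  rw [h2] at h
  unfold cc
  push_cast at h ⊢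
  linear_combination (1 / (2 * (Real.pi : ℂ))) * h

lemma cc_bound (k : ℕ) : ∀ (Φ : ℝ → ℂ), ContDiff ℝ ∞ Φ → (∀ t, Φ (t + 2 * Real.pi) = Φ t) →
    ∃ M : ℝ, ∀ j : ℤ, |(j : ℝ)| ^ k * ‖cc Φ j‖ ≤ M := by
  induction k with
  | zero =>
    intro Φ hs hp
    refine ⟨1 / (2 * Real.pi) * ∫ t in (0 : ℝ)..2 * Real.pi, ‖Φ t‖, fun j => ?_⟩
    rw [pow_zero, one_mul]
    unfold cc
    rw [norm_mul, Complex.norm_real, Real.norm_of_nonneg (by positivity)]
    apply mul_le_mul_of_nonneg_left _ (by positivity)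
    calc ‖∫ t in (0 : ℝ)..2 * Real.pi, Φ t * ej (-j) t‖
        ≤ ∫ t in (0 : ℝ)..2 * Real.pi, ‖Φ t * ej (-j) t‖ :=
          intervalIntegral.norm_integral_le_integral_norm (by positivity)
      _ = _ := by
          congr 1
          funext t
          rw [norm_mul, ej_norm, mul_one]
  | succ k ih =>
    intro Φ hs hp
    have hs' : ContDiff ℝ ∞ (deriv Φ) := by
      have h := (contDiff_infty_iff_deriv (𝕜 := ℝ) (f := Φ)).1 hs
      exact h.2
    have hp' : ∀ t, deriv Φ (t + 2 * Real.pi) = deriv Φ t := by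
      intro t
      have h1 : (fun t => Φ (t + 2 * Real.pi)) = Φ := funext hp
      have h2 := deriv_comp_add_const Φ (2 * Real.pi) t
      rw [h1] at h2
      exact h2.symm
    obtain ⟨M, hM⟩ := ih (deriv Φ) hs' hp'
    refine ⟨M, fun j => ?_⟩
    have h := hM j
    rw [cc_deriv Φ hs hp j, norm_mul, norm_mul, Complex.norm_I, mul_one,
      show ‖(j : ℂ)‖ = |(j : ℝ)| by
        rw [← Complex.ofReal_intCast, Complex.norm_real, Real.norm_eq_abs]] at h
    calc |(j : ℝ)| ^ (k + 1) * ‖cc Φ j‖ = |(j : ℝ)| ^ k * (|(j : ℝ)| * ‖cc Φ j‖) := by ring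
      _ ≤ M := h

lemma cc_summable (Φ : ℝ → ℂ) (hs : ContDiff ℝ ∞ Φ) (hp : ∀ t, Φ (t + 2 * Real.pi) = Φ t)
    (k : ℕ) : Summable fun j : ℤ => |(j : ℝ)| ^ k * ‖cc Φ j‖ := by
  obtain ⟨M, hM⟩ := cc_bound (k + 2) Φ hs hp
  have h1 : Summable fun j : ℤ => M * (1 / (j : ℝ) ^ 2) :=
    (Real.summable_one_div_int_pow.2 (by norm_num)).mul_left M
  apply Summable.of_norm_bounded_eventually h1
  have h2 : ∀ᶠ j : ℤ in Filter.cofinite, j ≠ 0 := Filter.eventually_cofinite_ne 0
  filter_upwards [h2] with j hj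
  have hj2 : (0 : ℝ) < (j : ℝ) ^ 2 := by
    have : (j : ℝ) ≠ 0 := by exact_mod_cast hj
    positivity
  rw [Real.norm_of_nonneg (by positivity), mul_one_div, le_div_iff₀ hj2]
  calc |(j : ℝ)| ^ k * ‖cc Φ j‖ * (j : ℝ) ^ 2 = |(j : ℝ)| ^ (k + 2) * ‖cc Φ j‖ := by
        rw [← sq_abs (j : ℝ)]; ring
    _ ≤ M := hM j

lemma cc_sum (Φ : ℝ → ℂ) (hs : ContDiff ℝ ∞ Φ) (hp : ∀ t, Φ (t + 2 * Real.pi) = Φ t) (t : ℝ) :
    Φ t = ∑' j : ℤ, cc Φ j * ej j t := by
  have hT : Fact (0 < 2 * Real.pi) := ⟨by positivity⟩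
  have hper : Function.Periodic Φ (2 * Real.pi) := hp
  let g : AddCircle (2 * Real.pi) → ℂ := hper.lift
  have hg : ∀ x : ℝ, g (x : AddCircle (2 * Real.pi)) = Φ x := fun x => hper.lift_coe x
  have hgc : Continuous g := by
    apply continuous_coinduced_dom.2
    exact hs.continuous
  let f : C(AddCircle (2 * Real.pi), ℂ) := ⟨g, hgc⟩
  have hfour : ∀ (n : ℤ) (x : ℝ), fourier n (x : AddCircle (2 * Real.pi)) = ej n x := by
    intro n x
    rw [fourier_coe_apply]
    unfold ej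
    congr 1
    push_cast
    have : (Real.pi : ℂ) ≠ 0 := by exact_mod_cast Real.pi_ne_zero
    field_simp
  have hcoef : ∀ n : ℤ, fourierCoeff f n = cc Φ n := by
    intro n
    rw [fourierCoeff_eq_intervalIntegral f n 0, zero_add]
    unfold cc
    rw [Complex.real_smul]
    congr 1
    congr 1
    funext x
    rw [hfour, smul_eq_mul, mul_comm]
    congr 1
  have hsum : Summable (fourierCoeff f) := by
    have h := cc_summable Φ hs hp 0
    apply Summable.of_norm
    convert h using 2 with n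
    rw [hcoef, pow_zero, one_mul]
  have h := has_pointwise_sum_fourier_series_of_summable hsum (t : AddCircle (2 * Real.pi))
  have h2 : (fun i => fourierCoeff f i • fourier i (t : AddCircle (2 * Real.pi))) =
      fun j : ℤ => cc Φ j * ej j t := by
    funext i
    rw [hcoef, hfour, smul_eq_mul]
  rw [h2] at h
  rw [h.tsum_eq]
  exact (hg t).symm

theorem t_FS : S_FS := by
  refine ⟨fun Φ hs hp => ⟨cc Φ, cc_summable Φ hs hp, cc_sum Φ hs hp, fun j => rfl⟩, ?_, ?_⟩
  · intro c hc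
    have h := smooth_sum c (fun j => (j : ℤ)) (by
      intro k
      convert hc k using 3 with j
      rw [Int.cast_natCast, abs_of_nonneg (Nat.cast_nonneg j)])
    exact h
  · intro c hc
    have h := smooth_sum c (fun j => -((j : ℤ) + 1)) (by
      intro k
      have h1 : Summable fun j : ℕ => 2 ^ (k - 1) * ((j : ℝ) ^ k * ‖c j‖ + (j : ℝ) ^ 0 * ‖c j‖) :=
        ((hc k).add (hc 0)).mul_left _
      refine Summable.of_nonneg_of_le (fun j => by positivity) (fun j => ?_) h1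
      have h2 : |((-((j : ℤ) + 1) : ℤ) : ℝ)| = (j : ℝ) + 1 := by
        push_cast
        rw [abs_neg, abs_of_nonneg (by positivity)]
      rw [h2]
      have h3 : ((j : ℝ) + 1) ^ k ≤ 2 ^ (k - 1) * ((j : ℝ) ^ k + 1 ^ k) :=
        add_pow_le (Nat.cast_nonneg j) zero_le_one k
      calc ((j : ℝ) + 1) ^ k * ‖c j‖ ≤ 2 ^ (k - 1) * ((j : ℝ) ^ k + 1 ^ k) * ‖c j‖ :=
            mul_le_mul_of_nonneg_right h3 (norm_nonneg _)
        _ = _ := by rw [one_pow]; ring)
    exact h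

end Pool.Agent.Y769.PL
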